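import Pool.Agent.H369.CB.Stm

/-!
# Emptiness from short rows, flattening and a shear, with uniform points
-/

set_option autoImplicit false

namespace Pool.Agent.H720.CB

open Pool.Agent.TH603.EL Pool.Agent.TH603.EL.Scal1 Pool.Agent.TH716.CF Pool.Agent.H369.CB
open Pool.Agent.TH98.CF

/-- a well-founded set of reals is countable -/
theorem wf_countable (s : Set ℝ) (hs : s.IsWF) : s.Countable := by
  classical
  have ht : {a | a ∈ s ∧ ∃ b ∈ s, a < b}.Countable := by
    have h1 : ∀ a ∈ {a | a ∈ s ∧ ∃ b ∈ s, a < b}, ∃ y : ℝ, a < y ∧ ∀ b ∈ s, a < b → y ≤ b := by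
      rintro a ⟨_, b, hb, hab⟩
      have hwf : ({b | b ∈ s ∧ a < b} : Set ℝ).IsWF := hs.mono (fun b hb => hb.1)
      have hne : ({b | b ∈ s ∧ a < b} : Set ℝ).Nonempty := ⟨b, hb, hab⟩
      exact ⟨hwf.min hne, (hwf.min_mem hne).2, fun c hc hac => hwf.min_le hne ⟨hc, hac⟩⟩
    choose! y hy1 hy2 using h1
    apply Set.PairwiseDisjoint.countable_of_Ioo (y := y) _ hy1
    have key : ∀ a ∈ {a | a ∈ s ∧ ∃ b ∈ s, a < b}, ∀ b ∈ {a | a ∈ s ∧ ∃ b ∈ s, a < b}, a < b →
        Disjoint (Set.Ioo a (y a)) (Set.Ioo b (y b)) := by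
      intro a ha b hb hab
      rw [Set.disjoint_left]
      intro u hu hv
      have := hy2 a ha b hb.1 hab
      exact absurd (hu.2.trans_le (this.trans hv.1.le)) (lt_irrefl _)
    intro a ha b hb hab
    rcases lt_or_gt_of_ne hab with h | h
    · exact key a ha b hb h
    · exact (key b hb a ha h).symm
  have h2 : s ⊆ {a | a ∈ s ∧ ∃ b ∈ s, a < b} ∪ {a | a ∈ s ∧ ∀ b ∈ s, b ≤ a} := by
    intro a ha
    by_cases h : ∃ b ∈ s, a < b
    · exact Or.inl ⟨ha, h⟩
    · push Not at h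
      exact Or.inr ⟨ha, h⟩
  refine (ht.union (Set.Subsingleton.countable ?_)).mono h2
  intro a ha b hb
  exact le_antisymm (hb.2 a ha.1) (ha.2 b hb.1)

/-- the field of Hahn series has at most the cardinality of the continuum -/
theorem card_HK : Cardinal.mk (HK ℚ) ≤ Cardinal.continuum := by
  classical
  have h1 : ∀ x : HK ℚ, ∃ e : ℕ → ℝ × ℚ, insert ((0, 0) : ℝ × ℚ) {p | p.2 ≠ 0 ∧ x.coeff p.1 = p.2} = Set.range e := by
    intro x
    apply Set.Countable.exists_eq_range
    · refine Set.Countable.insert _ ?_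
      refine ((wf_countable x.support x.isWF_support).image (fun a => (a, x.coeff a))).mono ?_
      rintro ⟨a, q⟩ ⟨hq, hx⟩
      simp only at hq hx
      refine ⟨a, ?_, ?_⟩
      · rw [HahnSeries.mem_support, hx]; exact hq
      · simp only [hx]
    · exact ⟨_, Set.mem_insert _ _⟩
  choose e he using h1
  have hinj : Function.Injective e := by
    intro x x' hxx
    have h2 : ∀ (u v : HK ℚ), e u = e v → ∀ a, u.coeff a ≠ 0 → v.coeff a = u.coeff a := by
      intro u v huv a ha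
      have h3 : ((a, u.coeff a) : ℝ × ℚ) ∈ insert ((0, 0) : ℝ × ℚ) {p | p.2 ≠ 0 ∧ u.coeff p.1 = p.2} :=
        Set.mem_insert_of_mem _ ⟨ha, rfl⟩
      rw [he u, huv, ← he v] at h3
      rcases h3 with h3 | h3
      · exact absurd (congrArg Prod.snd h3) ha
      · exact h3.2
    ext a
    by_cases h : x.coeff a = 0
    · by_cases h' : x'.coeff a = 0
      · rw [h, h']
      · exact h2 x' x hxx.symm a h'
    · exact (h2 x x' hxx a h).symm
  refine (Cardinal.mk_le_of_injective hinj).trans ?_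
  simp [Cardinal.mk_real]

/-- the points -/
noncomputable def xp {m : ℕ} (i : Fin m) : ℚ := (i : ℚ) + 1

theorem xp_pos {m : ℕ} (i : Fin m) : 0 < xp i := by unfold xp; positivity

theorem xp_inj {m : ℕ} : Function.Injective (xp (m := m)) := by
  intro i j h
  unfold xp at h
  have : (i : ℚ) = (j : ℚ) := by linarith
  exact Fin.ext (by exact_mod_cast this)

/-- the shear as a ring homomorphism -/
noncomputable def Sh (κ : ℕ) : Lau (HK ℚ) →+* Lau (HK ℚ) :=
  AddMonoidAlgebra.mapDomainRingHom (HK ℚ) (sh (κ : ℤ))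

/-- the germs -/
noncomputable def phi (κ : ℕ) (x : ℚ) (hx : x ≠ 0) : Lau (HK ℚ) →+* PowerSeries (HK ℚ) :=
  ((hat (gm x hx)).comp (Fl ℚ)).comp (Sh κ)

theorem Sh_single (κ : ℕ) (z : ℤ × ℤ) (c : HK ℚ) :
    Sh κ (AddMonoidAlgebra.single z c) = AddMonoidAlgebra.single (sh κ z) c :=
  AddMonoidAlgebra.mapDomain_single

theorem gm_germ (x : ℚ) (hx : x ≠ 0) : IsGerm (gm x hx) :=
  ⟨gm_const _ _, by rw [gm_x]; simp⟩

theorem phi_germ (κ : ℕ) (x : ℚ) (hx : x ≠ 0) : IsGerm (phi κ x hx) := by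
  have h := (gm_germ x hx).push
  refine ⟨fun c => ?_, ?_⟩
  · unfold phi
    rw [RingHom.comp_apply, Sh_single, map_zero]
    exact h.const c
  · unfold phi
    rw [RingHom.comp_apply, Sh_single]
    have : sh (κ : ℤ) (1, 0) = (1, 0) := by simp [sh]
    rw [this]
    exact h.der

theorem cc_hat (x : ℚ) (hx : x ≠ 0) (a : ℝ) (i j : ℤ) :
    PowerSeries.constantCoeff (hat (gm x hx) (tz ℚ a i j)) =
      HahnSeries.single a (PowerSeries.constantCoeff (gm x hx (AddMonoidAlgebra.single (i, j) 1))) := by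
  ext b
  rw [← PowerSeries.coeff_zero_eq_constantCoeff_apply, coeff_hat]
  unfold tz
  by_cases h : b = a
  · subst h
    rw [HahnSeries.coeff_single_same, HahnSeries.coeff_single_same,
      PowerSeries.coeff_zero_eq_constantCoeff_apply]
  · rw [HahnSeries.coeff_single_of_ne h, HahnSeries.coeff_single_of_ne h, map_zero, map_zero]

theorem cc_gm (x : ℚ) (hx : x ≠ 0) (i j : ℕ) :
    PowerSeries.constantCoeff (gm x hx (AddMonoidAlgebra.single ((i : ℤ), (j : ℤ)) 1)) = x ^ i := by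
  have h : (AddMonoidAlgebra.single ((i : ℤ), (j : ℤ)) 1 : Lau ℚ) =
      AddMonoidAlgebra.single (1, 0) 1 ^ i * AddMonoidAlgebra.single (0, 1) 1 ^ j := by
    rw [AddMonoidAlgebra.single_pow, AddMonoidAlgebra.single_pow, AddMonoidAlgebra.single_mul_single]
    congr 1
    · ext <;> simp
    · simp
  rw [h, map_mul, map_pow, map_pow, gm_x, gm_y, one_pow, mul_one, map_pow]
  simp

theorem phi_x (κ : ℕ) (x : ℚ) (hx : x ≠ 0) :
    PowerSeries.constantCoeff (phi κ x hx (AddMonoidAlgebra.single (1, 0) 1)) = HahnSeries.single 0 x := by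
  unfold phi
  have : sh (κ : ℤ) (1, 0) = (1, 0) := by simp [sh]
  rw [RingHom.comp_apply, Sh_single, this, RingHom.comp_apply, Fl_single, zpow_zero, Units.val_one,
    mul_one, map_one, one_mul, cc_hat]
  have := cc_gm x hx 1 0
  rw [Nat.cast_one, Nat.cast_zero] at this
  rw [this, pow_one]

theorem phi_y (κ : ℕ) (x : ℚ) (hx : x ≠ 0) :
    PowerSeries.constantCoeff (phi κ x hx (AddMonoidAlgebra.single (0, 1) 1)) =
      HahnSeries.single 0 (x ^ κ) + HahnSeries.single 1 (x ^ κ) := by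
  unfold phi
  have : sh (κ : ℤ) (0, 1) = ((κ : ℤ), 1) := by simp [sh]
  rw [RingHom.comp_apply, Sh_single, this, RingHom.comp_apply, Fl_single, zpow_one, vu_val,
    map_one, one_mul]
  unfold vv
  rw [mul_add, mul_one, tz_mul_tz, map_add, map_add, cc_hat, cc_hat]
  have h1 := cc_gm x hx κ 0
  have h2 := cc_gm x hx κ 1
  rw [Nat.cast_zero] at h1
  rw [Nat.cast_one] at h2
  rw [zero_add, add_zero, zero_add, h1, h2]

/-- flattening for a fixed germ family -/
theorem flat {m : ℕ} {γ : ℕ} {S1 S' : Set (ℤ × ℤ)}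
    (h : ∀ f : Lau ℚ, (∀ z, f.coeff z ≠ 0 → z ∈ S') →
      (∀ i : Fin m, f ∈ J (gm (xp i) (xp_pos i).ne') 1 ^ γ) → f = 0)
    (hS : ∀ a b T k : ℤ, (a, b) ∈ S1 → (a, b + T) ∈ S1 → 0 ≤ k → k ≤ T → (a, k) ∈ S')
    (f : Lau (HK ℚ)) (h1 : ∀ z, f.coeff z ≠ 0 → z ∈ S1)
    (h2 : ∀ i : Fin m, f ∈ J ((hat (gm (xp i) (xp_pos i).ne')).comp (Fl ℚ)) 1 ^ γ) : f = 0 := by
  by_contra hne
  -- shift to nonnegative rows
  obtain ⟨N, hN⟩ : ∃ N : ℕ, ∀ m ∈ f.coeff.support, 0 ≤ m.2 + (N : ℤ) := by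
    refine ⟨∑ m ∈ f.coeff.support, m.2.natAbs, fun m hm => ?_⟩
    have : m.2.natAbs ≤ ∑ m ∈ f.coeff.support, m.2.natAbs :=
      Finset.single_le_sum (f := fun m : ℤ × ℤ => m.2.natAbs) (fun _ _ => Nat.zero_le _) hm
    omega
  set f' : Lau (HK ℚ) := AddMonoidAlgebra.single (0, (N : ℤ)) 1 * f with hf'
  have hc : ∀ m : ℤ × ℤ, f'.coeff m = f.coeff (m.1, m.2 - N) := by
    intro m
    rw [hf', AddMonoidAlgebra.coeff_single_mul_apply, one_mul]
    congr 1
    ext
    · simp
    · simp; ring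
  have hrow : ∀ m ∈ f'.coeff.support, 0 ≤ m.2 := by
    intro m hm
    rw [Finsupp.mem_support_iff, hc] at hm
    have := hN _ (Finsupp.mem_support_iff.2 hm)
    simp only at this
    omega
  have hne' : f' ≠ 0 := by
    intro h3
    apply hne
    apply eq_zero_of_coeff
    intro m
    have h4 := hc (m.1, m.2 + N)
    rw [h3] at h4
    simp only [add_sub_cancel_right] at h4
    exact h4.symm
  obtain ⟨a, ha1, ha2⟩ := Fl_lead hrow hne'
  apply ha1
  apply h
  · rintro ⟨i, j⟩ hm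
    obtain ⟨b, T, hb, hT, hj0, hjT⟩ := ha2 i j hm
    rw [hc] at hb hT
    refine hS i (b - N) T j (h1 _ hb) ?_ hj0 hjT
    have := h1 _ hT
    simp only at this
    have e : b - N + T = b + T - N := by ring
    rw [e]
    exact this
  · intro i
    exact transfer (gm (xp i) (xp_pos i).ne') (Fl ℚ) (Ideal.mul_mem_left _ _ (h2 i)) a

theorem unif : S_unif := by
  intro m κ hκ
  have hu : ∀ i : Fin m, (HahnSeries.single (0 : ℝ) (xp i) : HK ℚ) ≠ 0 := fun i =>
    HahnSeries.single_ne_zero (xp_pos i).ne'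
  refine ⟨HK ℚ, inferInstance, ?_, fun i => Units.mk0 _ (hu i),
    fun i => HahnSeries.single 0 (xp i ^ κ) + HahnSeries.single 1 (xp i ^ κ),
    fun i => phi κ (xp i) (xp_pos i).ne', card_HK, ?_, ?_, fun i => phi_germ _ _ _,
    fun i => phi_x _ _ _, fun i => phi_y _ _ _, ?_⟩
  · have : CharP (HK ℚ) 0 := inferInstance
    exact CharP.charP_to_charZero _
  · intro i j hij
    have h1 := congrArg (fun u : (HK ℚ)ˣ => (u : HK ℚ).coeff 0) hij
    simp only [Units.val_mk0, HahnSeries.coeff_single_same] at h1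
    exact xp_inj h1
  · intro i j hij
    have h1 := congrArg (fun u : HK ℚ => u.coeff 0) hij
    simp only [HahnSeries.coeff_add, HahnSeries.coeff_single_same] at h1
    rw [HahnSeries.coeff_single_of_ne (zero_ne_one), HahnSeries.coeff_single_of_ne (zero_ne_one),
      add_zero, add_zero] at h1
    exact xp_inj ((pow_left_inj₀ (xp_pos i).le (xp_pos j).le hκ.ne').1 h1)
  · intro S S1 S' γ hS0 hrow hflat hsh f hfS hf
    have h3 : Sh κ f = 0 := by
      refine flat (m := m) (γ := γ) (S' := S') ?_ hflat _ ?_ ?_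
      · intro g hg hgJ
        refine final_rows (x := fun i : Fin m => xp i) xp_inj (fun i => (xp_pos i).ne')
          (fun i => gm_const _ _) (fun i => gm_x _ _) (fun i => gm_y _ _) (r := fun _ => 1)
          (w := fun _ => γ) hS0 ?_ (fun z hz => hg z (Finsupp.mem_support_iff.1 hz)) hgJ
        intro k z hz z' hz' h1 h2
        have := hrow k z hz z' hz' h1 h2
        refine this.trans_le (le_of_eq ?_)
        simp
      · intro z hz
        have hc : (Sh κ f).coeff z = (AddMonoidAlgebra.mapDomain (sh (κ : ℤ)) f).coeff z := rfl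
        rw [hc, AddMonoidAlgebra.coeff_mapDomain] at hz
        classical
        have h4 := Finsupp.mapDomain_support (Finsupp.mem_support_iff.2 hz)
        rw [Finset.mem_image] at h4
        obtain ⟨m', hm', rfl⟩ := h4
        exact hsh m' (hfS m' (Finsupp.mem_support_iff.1 hm'))
      · intro i
        exact transfer0 _ (Sh κ) (hf i)
    apply AddMonoidAlgebra.mapDomain_injective (sh_injective (κ : ℤ))
    have h5 : AddMonoidAlgebra.mapDomain (sh (κ : ℤ)) f = Sh κ f := rfl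
    rw [h5, h3]
    exact (map_zero (Sh κ)).symm

end Pool.Agent.H720.CB
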